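import Mathlib

/-!
# Binomial weights: the largest weight and the variance
-/

set_option autoImplicit false

namespace Pool.Agent.H17.QM

open Finset

section

variable {M l : ℕ}

/-- The weight of the sets with `k` elements. -/
noncomputable def bw (M l k : ℕ) : ℝ := (M * l).choose k * (1 / ((M : ℝ) - 1)) ^ k

lemma bw_nonneg (hM : 2 ≤ M) (k : ℕ) : 0 ≤ bw M l k := by
  have h : (0 : ℝ) < (M : ℝ) - 1 := by
    have : (2 : ℝ) ≤ M := by exact_mod_cast hM
    linarith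
  unfold bw
  positivity

lemma bw_succ (hM : 2 ≤ M) {k : ℕ} (hk : k ≤ M * l) :
    bw M l (k + 1) * (((k : ℝ) + 1) * ((M : ℝ) - 1)) = bw M l k * ((M : ℝ) * l - k) := by
  have h : (0 : ℝ) < (M : ℝ) - 1 := by
    have : (2 : ℝ) ≤ M := by exact_mod_cast hM
    linarith
  have h1 := Nat.choose_succ_right_eq (M * l) k
  have h2 : (((M * l).choose (k + 1) * (k + 1) : ℕ) : ℝ) =
      (((M * l).choose k * (M * l - k) : ℕ) : ℝ) := by rw [h1]
  push_cast [Nat.cast_sub hk] at h2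
  unfold bw
  rw [pow_succ]
  calc ((M * l).choose (k + 1) : ℝ) * ((1 / ((M : ℝ) - 1)) ^ k * (1 / ((M : ℝ) - 1))) *
        (((k : ℝ) + 1) * ((M : ℝ) - 1))
      = (((M * l).choose (k + 1) : ℝ) * ((k : ℝ) + 1)) * (1 / ((M : ℝ) - 1)) ^ k := by
        field_simp
    _ = _ := by rw [h2]; ring

lemma bw_eq_zero {k : ℕ} (hk : M * l < k) : bw M l k = 0 := by
  unfold bw
  rw [Nat.choose_eq_zero_of_lt hk, Nat.cast_zero, zero_mul]

lemma bw_le_succ (hM : 2 ≤ M) {k : ℕ} (hk : k < l) : bw M l k ≤ bw M l (k + 1) := by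
  have hM' : (2 : ℝ) ≤ M := by exact_mod_cast hM
  have hkl : (k : ℝ) + 1 ≤ l := by exact_mod_cast hk
  have h1 := bw_succ (l := l) hM (k := k) (by nlinarith)
  have h2 : ((k : ℝ) + 1) * ((M : ℝ) - 1) ≤ (M : ℝ) * l - k := by nlinarith
  have h3 : 0 < ((k : ℝ) + 1) * ((M : ℝ) - 1) := by
    have : (0 : ℝ) < (M : ℝ) - 1 := by linarith
    positivity
  have h4 := mul_le_mul_of_nonneg_left h2 (bw_nonneg (l := l) hM k)
  rw [← h1] at h4
  exact le_of_mul_le_mul_right h4 h3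

lemma bw_succ_le (hM : 2 ≤ M) {k : ℕ} (hk : l ≤ k) : bw M l (k + 1) ≤ bw M l k := by
  rcases Nat.lt_or_ge (M * l) k with h | h
  · rw [bw_eq_zero (by omega : M * l < k + 1)]
    exact bw_nonneg hM k
  have hM' : (2 : ℝ) ≤ M := by exact_mod_cast hM
  have hkl : (l : ℝ) ≤ k := by exact_mod_cast hk
  have h1 := bw_succ (l := l) hM h
  have h2 : (M : ℝ) * l - k ≤ ((k : ℝ) + 1) * ((M : ℝ) - 1) := by nlinarith
  have h3 : 0 < ((k : ℝ) + 1) * ((M : ℝ) - 1) := by
    have : (0 : ℝ) < (M : ℝ) - 1 := by linarith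
    positivity
  have h4 := mul_le_mul_of_nonneg_left h2 (bw_nonneg (l := l) hM k)
  rw [← h1] at h4
  exact le_of_mul_le_mul_right h4 h3

lemma bw_le_mode (hM : 2 ≤ M) (k : ℕ) : bw M l k ≤ bw M l l := by
  have hdown : ∀ j ≤ l, bw M l (l - j) ≤ bw M l l := by
    intro j
    induction j with
    | zero => intro _; rw [Nat.sub_zero]
    | succ j ih =>
      intro hj
      have h1 := bw_le_succ (l := l) hM (k := l - (j + 1)) (by omega)
      have e : l - (j + 1) + 1 = l - j := by omega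
      rw [e] at h1
      exact h1.trans (ih (by omega))
  have hup : ∀ j, bw M l (l + j) ≤ bw M l l := by
    intro j
    induction j with
    | zero => rw [Nat.add_zero]
    | succ j ih => exact (bw_succ_le hM (Nat.le_add_right l j)).trans ih
  rcases Nat.le_total k l with h | h
  · have := hdown (l - k) (by omega)
    rwa [Nat.sub_sub_self h] at this
  · have := hup (k - l)
    rwa [Nat.add_sub_cancel' h] at this

lemma bw_near (hM : 2 ≤ M) (hl : 1 ≤ l) (i : ℕ) (hi : i ^ 2 ≤ l + 1) :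
    bw M l l * (1 - (i : ℝ) ^ 2 / ((l : ℝ) + 1)) ≤ bw M l (l + i) := by
  have hM' : (2 : ℝ) ≤ M := by exact_mod_cast hM
  have hl' : (1 : ℝ) ≤ l := by exact_mod_cast hl
  have hl1 : (0 : ℝ) < (l : ℝ) + 1 := by positivity
  induction i with
  | zero => simp
  | succ i ih =>
    have hi2 : i ^ 2 ≤ l + 1 := le_trans (Nat.pow_le_pow_left (Nat.le_succ i) 2) hi
    have ih' := ih hi2
    have hile : i ≤ l := by nlinarith
    have hiR : (i : ℝ) ≤ l := by exact_mod_cast hile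
    have hsq : ((i : ℝ) + 1) ^ 2 ≤ (l : ℝ) + 1 := by exact_mod_cast hi
    have h1 := bw_succ (l := l) hM (k := l + i) (by nlinarith)
    push_cast at h1
    have hden : 0 < ((l : ℝ) + i + 1) * ((M : ℝ) - 1) := by
      have : (0 : ℝ) < (M : ℝ) - 1 := by linarith
      positivity
    have hc : 0 ≤ 1 - (2 * (i : ℝ) + 1) / ((l : ℝ) + 1) := by
      rw [sub_nonneg, div_le_one hl1]
      nlinarith
    have h2 : (1 - (2 * (i : ℝ) + 1) / ((l : ℝ) + 1)) *
        (((l : ℝ) + i + 1) * ((M : ℝ) - 1)) ≤ (M : ℝ) * l - (l + i) := by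
      have e1 : (1 - (2 * (i : ℝ) + 1) / ((l : ℝ) + 1)) * ((l : ℝ) + i + 1) ≤ l - i := by
        have : (2 * (i : ℝ) + 1) ≤ (2 * (i : ℝ) + 1) / ((l : ℝ) + 1) * ((l : ℝ) + i + 1) := by
          rw [div_mul_eq_mul_div, le_div_iff₀ hl1]
          have : (0 : ℝ) ≤ i := Nat.cast_nonneg i
          nlinarith
        linarith
      calc (1 - (2 * (i : ℝ) + 1) / ((l : ℝ) + 1)) * (((l : ℝ) + i + 1) * ((M : ℝ) - 1))
          = ((1 - (2 * (i : ℝ) + 1) / ((l : ℝ) + 1)) * ((l : ℝ) + i + 1)) * ((M : ℝ) - 1) := by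
            ring
        _ ≤ (l - i) * ((M : ℝ) - 1) := mul_le_mul_of_nonneg_right e1 (by linarith)
        _ ≤ (M : ℝ) * l - (l + i) := by
            have : (0 : ℝ) ≤ i := Nat.cast_nonneg i
            nlinarith
    have h3 : bw M l (l + i) * (1 - (2 * (i : ℝ) + 1) / ((l : ℝ) + 1)) ≤
        bw M l (l + i + 1) := by
      have h4 := mul_le_mul_of_nonneg_left h2 (bw_nonneg (l := l) hM (l + i))
      rw [← h1, ← mul_assoc] at h4
      exact le_of_mul_le_mul_right h4 hden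
    have h5 := mul_le_mul_of_nonneg_right ih' hc
    rw [← Nat.add_assoc]
    refine le_trans ?_ (h5.trans h3)
    rw [mul_assoc]
    refine mul_le_mul_of_nonneg_left ?_ (bw_nonneg hM l)
    have e2 : 0 ≤ ((i : ℝ) ^ 2 / ((l : ℝ) + 1)) * ((2 * (i : ℝ) + 1) / ((l : ℝ) + 1)) := by
      positivity
    push_cast
    have e3 : ((i : ℝ) + 1) ^ 2 / ((l : ℝ) + 1) =
        (i : ℝ) ^ 2 / ((l : ℝ) + 1) + (2 * (i : ℝ) + 1) / ((l : ℝ) + 1) := by
      rw [← add_div]; ring
    rw [e3]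
    nlinarith

lemma one_add_eq (hM : 2 ≤ M) : (1 : ℝ) + 1 / ((M : ℝ) - 1) = (1 - 1 / (M : ℝ))⁻¹ := by
  have hM' : (2 : ℝ) ≤ M := by exact_mod_cast hM
  have h1 : (M : ℝ) - 1 ≠ 0 := by intro h; linarith
  have h2 : (M : ℝ) ≠ 0 := by intro h; linarith
  field_simp
  ring

lemma sum_bw (_hM : 2 ≤ M) : ∑ k ∈ range (M * l + 1), bw M l k =
    (1 + 1 / ((M : ℝ) - 1)) ^ (M * l) := by
  rw [add_comm (1 : ℝ), add_pow]
  refine sum_congr rfl fun k _ => ?_
  rw [bw, one_pow, mul_one, mul_comm]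

/-- The largest weight is at most `2 / r` of the total weight if `2 r² ≤ l + 1`. -/
theorem bw_le (hM : 2 ≤ M) (hl : 1 ≤ l) {r : ℕ} (hr : 1 ≤ r) (hr2 : 2 * r ^ 2 ≤ l + 1) (k : ℕ) :
    bw M l k ≤ 2 / r * (1 + 1 / ((M : ℝ) - 1)) ^ (M * l) := by
  have hl1 : (0 : ℝ) < (l : ℝ) + 1 := by positivity
  have hrl : r ≤ l := by nlinarith
  refine (bw_le_mode hM k).trans ?_
  have h1 : ∀ i ∈ range r, bw M l l / 2 ≤ bw M l (l + i) := by
    intro i hi
    rw [mem_range] at hi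
    have hir : i ^ 2 ≤ r ^ 2 := Nat.pow_le_pow_left hi.le 2
    refine le_trans ?_ (bw_near hM hl i (by omega))
    rw [div_eq_mul_inv]
    refine mul_le_mul_of_nonneg_left ?_ (bw_nonneg hM l)
    have h2 : (i : ℝ) ^ 2 / ((l : ℝ) + 1) ≤ 1 / 2 := by
      rw [div_le_div_iff₀ hl1 (by norm_num)]
      have : 2 * i ^ 2 ≤ l + 1 := by omega
      have h3 : 2 * (i : ℝ) ^ 2 ≤ (l : ℝ) + 1 := by exact_mod_cast this
      linarith
    linarith
  have h2 : (r : ℝ) * (bw M l l / 2) ≤ ∑ i ∈ range r, bw M l (l + i) := by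
    have := sum_le_sum h1
    rwa [sum_const, card_range, nsmul_eq_mul] at this
  have h3 : ∑ i ∈ range r, bw M l (l + i) ≤ ∑ k ∈ range (M * l + 1), bw M l k := by
    have e : ∑ i ∈ range r, bw M l (l + i) =
        ∑ k ∈ (range r).map (addLeftEmbedding l), bw M l k := by
      rw [sum_map]
      rfl
    rw [e]
    refine sum_le_sum_of_subset_of_nonneg ?_ fun k _ _ => bw_nonneg hM k
    intro k hk
    rw [mem_map] at hk
    obtain ⟨i, hi, rfl⟩ := hk
    rw [mem_range] at hi ⊢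
    simp only [addLeftEmbedding_apply]
    nlinarith
  rw [sum_bw hM] at h3
  have hr' : (0 : ℝ) < r := by exact_mod_cast hr
  rw [div_mul_eq_mul_div, le_div_iff₀ hr']
  linarith

lemma bern_eval (hM : 2 ≤ M) {k : ℕ} (hk : k ≤ M * l) :
    (bernsteinPolynomial ℝ (M * l) k).eval (1 / (M : ℝ)) *
      (1 + 1 / ((M : ℝ) - 1)) ^ (M * l) = bw M l k := by
  have hM' : (2 : ℝ) ≤ M := by exact_mod_cast hM
  have h1 : (M : ℝ) - 1 ≠ 0 := by intro h; linarith
  have h2 : (M : ℝ) ≠ 0 := by intro h; linarith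
  have h3 : (1 : ℝ) - 1 / (M : ℝ) ≠ 0 := by
    have : (1 : ℝ) - 1 / M = (M - 1) / M := by field_simp
    rw [this]
    positivity
  have h4 : (1 : ℝ) / ((M : ℝ) - 1) = (1 / (M : ℝ)) * (1 - 1 / (M : ℝ))⁻¹ := by
    have : (1 : ℝ) - 1 / M = (M - 1) / M := by field_simp
    rw [this]
    field_simp
  rw [one_add_eq hM, bw, h4]
  simp only [bernsteinPolynomial, Polynomial.eval_mul, Polynomial.eval_pow, Polynomial.eval_X,
    Polynomial.eval_sub, Polynomial.eval_one, Polynomial.eval_natCast]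
  obtain ⟨d, hd⟩ := Nat.exists_eq_add_of_le hk
  rw [hd, Nat.add_sub_cancel_left, pow_add, mul_pow, inv_pow, inv_pow]
  field_simp

/-- The variance. -/
theorem bw_variance (hM : 2 ≤ M) : ∑ k ∈ range (M * l + 1), ((k : ℝ) - l) ^ 2 * bw M l k ≤
    l * (1 + 1 / ((M : ℝ) - 1)) ^ (M * l) := by
  have hM' : (2 : ℝ) ≤ M := by exact_mod_cast hM
  have h2 : (M : ℝ) ≠ 0 := by intro h; linarith
  set Z : ℝ := (1 + 1 / ((M : ℝ) - 1)) ^ (M * l) with hZ
  have hZ0 : 0 ≤ Z := by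
    have : (0 : ℝ) < (M : ℝ) - 1 := by linarith
    positivity
  have hv := congrArg (Polynomial.eval (1 / (M : ℝ))) (bernsteinPolynomial.variance ℝ (M * l))
  simp only [Polynomial.eval_finsetSum, Polynomial.eval_mul, Polynomial.eval_pow,
    Polynomial.eval_sub, nsmul_eq_mul, Polynomial.eval_X, Polynomial.eval_natCast,
    Polynomial.eval_one] at hv
  have e1 : ((M * l : ℕ) : ℝ) * (1 / (M : ℝ)) = l := by
    push_cast
    field_simp
  rw [e1] at hv
  calc ∑ k ∈ range (M * l + 1), ((k : ℝ) - l) ^ 2 * bw M l k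
      = (∑ k ∈ range (M * l + 1), ((l : ℝ) - k) ^ 2 *
          (bernsteinPolynomial ℝ (M * l) k).eval (1 / (M : ℝ))) * Z := by
        rw [sum_mul]
        refine sum_congr rfl fun k hk => ?_
        rw [mem_range] at hk
        rw [← bern_eval hM (by omega : k ≤ M * l), hZ]
        ring
    _ = (l * (1 - 1 / (M : ℝ))) * Z := by rw [hv]
    _ ≤ l * Z := by
        refine mul_le_mul_of_nonneg_right ?_ hZ0
        have h3 : (0 : ℝ) ≤ 1 / (M : ℝ) := by positivity
        have h4 : (0 : ℝ) ≤ l := Nat.cast_nonneg l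
        nlinarith

open Classical in
/-- Chebyshev's inequality for the weights. -/
theorem bw_tail {Y : Type*} [Fintype Y] [DecidableEq Y] (hY : Fintype.card Y = M * l)
    (hM : 2 ≤ M) {s : ℝ} (hs : 0 < s) (P : ℕ → Prop)
    (hP : ∀ k, P k → s ≤ |(k : ℝ) - l|) :
    ∑ W : Finset Y, (1 / ((M : ℝ) - 1)) ^ W.card * (if P W.card then (1 : ℝ) else 0) ≤
      l / s ^ 2 * (1 + 1 / ((M : ℝ) - 1)) ^ (M * l) := by
  have h1 : ∑ W : Finset Y, (1 / ((M : ℝ) - 1)) ^ W.card * (if P W.card then (1 : ℝ) else 0) =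
      ∑ k ∈ range (M * l + 1), (if P k then (1 : ℝ) else 0) * bw M l k := by
    have h2 := Finset.sum_powerset_apply_card (x := (univ : Finset Y))
      (fun k => (1 / ((M : ℝ) - 1)) ^ k * (if P k then (1 : ℝ) else 0))
    rw [powerset_univ, card_univ, hY] at h2
    rw [h2]
    refine sum_congr rfl fun k _ => ?_
    rw [nsmul_eq_mul, bw]
    ring
  rw [h1]
  have h3 : ∀ k ∈ range (M * l + 1), (if P k then (1 : ℝ) else 0) * bw M l k ≤
      1 / s ^ 2 * (((k : ℝ) - l) ^ 2 * bw M l k) := by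
    intro k _
    have hb := bw_nonneg (l := l) hM k
    split_ifs with h
    · have h4 := hP k h
      have h5 : s ^ 2 ≤ ((k : ℝ) - l) ^ 2 := by
        rw [← sq_abs ((k : ℝ) - l)]
        exact pow_le_pow_left₀ hs.le h4 2
      rw [one_mul, ← mul_assoc]
      refine le_mul_of_one_le_left hb ?_
      rw [one_div, inv_mul_eq_div, one_le_div (by positivity)]
      exact h5
    · rw [zero_mul]
      positivity
  calc ∑ k ∈ range (M * l + 1), (if P k then (1 : ℝ) else 0) * bw M l k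
      ≤ ∑ k ∈ range (M * l + 1), 1 / s ^ 2 * (((k : ℝ) - l) ^ 2 * bw M l k) := sum_le_sum h3
    _ = 1 / s ^ 2 * ∑ k ∈ range (M * l + 1), ((k : ℝ) - l) ^ 2 * bw M l k := by rw [mul_sum]
    _ ≤ 1 / s ^ 2 * (l * (1 + 1 / ((M : ℝ) - 1)) ^ (M * l)) :=
        mul_le_mul_of_nonneg_left (bw_variance hM) (by positivity)
    _ = _ := by ring

end

end Pool.Agent.H17.QM
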