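import Mathlib

/-!
# The chain argument: a predicate that separates consecutive levels has small weight
-/

set_option autoImplicit false

namespace Pool.Agent.H17.QM

open Finset

section

variable {Y : Type*} [Fintype Y] [DecidableEq Y]

/-- Double counting of the pairs `(W, y)` with `y ∉ W`. -/
lemma sum_insert (k : ℕ) (F : Finset Y → ℝ) :
    ∑ W ∈ powersetCard k (univ : Finset Y), ∑ y ∈ Wᶜ, F (insert y W) =
      ((k : ℝ) + 1) * ∑ W ∈ powersetCard (k + 1) (univ : Finset Y), F W := by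
  have h1 : ∀ W ∈ powersetCard (k + 1) (univ : Finset Y), ((k : ℝ) + 1) * F W =
      ∑ _y ∈ W, F W := by
    intro W hW
    rw [sum_const, nsmul_eq_mul, (mem_powersetCard.1 hW).2]
    push_cast
    ring
  rw [mul_sum, sum_congr rfl h1, sum_sigma', sum_sigma']
  refine sum_nbij' (fun p => ⟨insert p.2 p.1, p.2⟩) (fun p => ⟨p.1.erase p.2, p.2⟩) ?_ ?_ ?_ ?_ ?_
  · rintro ⟨W, y⟩ h
    simp only [mem_sigma, mem_powersetCard, mem_compl, subset_univ, true_and] at h ⊢
    exact ⟨by rw [card_insert_of_notMem h.2, h.1], mem_insert_self _ _⟩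
  · rintro ⟨W, y⟩ h
    simp only [mem_sigma, mem_powersetCard, mem_compl, subset_univ, true_and] at h ⊢
    exact ⟨by rw [card_erase_of_mem h.2, h.1]; rfl, notMem_erase _ _⟩
  · rintro ⟨W, y⟩ h
    simp only [mem_sigma, mem_powersetCard, mem_compl, subset_univ, true_and] at h
    simp only [Sigma.mk.injEq, heq_eq_eq, and_true]
    exact erase_insert h.2
  · rintro ⟨W, y⟩ h
    simp only [mem_sigma, mem_powersetCard, subset_univ, true_and] at h
    simp only [Sigma.mk.injEq, heq_eq_eq, and_true]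
    exact insert_erase h.2
  · rintro ⟨W, y⟩ _
    rfl

/-- The average of `F` over the sets with `k` elements. -/
noncomputable def lavg (F : Finset Y → ℝ) (k : ℕ) : ℝ :=
  (∑ W ∈ powersetCard k (univ : Finset Y), F W) / (Fintype.card Y).choose k

lemma lavg_nonneg {F : Finset Y → ℝ} (h : ∀ W, 0 ≤ F W) (k : ℕ) : 0 ≤ lavg F k :=
  div_nonneg (sum_nonneg fun W _ => h W) (Nat.cast_nonneg _)

lemma lavg_le_one {F : Finset Y → ℝ} (h : ∀ W, F W ≤ 1) (k : ℕ) : lavg F k ≤ 1 := by
  unfold lavg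
  refine div_le_one_of_le₀ ?_ (Nat.cast_nonneg _)
  calc ∑ W ∈ powersetCard k (univ : Finset Y), F W
      ≤ ∑ _W ∈ powersetCard k (univ : Finset Y), (1 : ℝ) := sum_le_sum fun W _ => h W
    _ = _ := by rw [sum_const, card_powersetCard, card_univ, nsmul_eq_mul, mul_one]

lemma lavg_step {F : Finset Y → ℝ} {k : ℕ} {δ : ℝ} (hk : k < Fintype.card Y)
    (h : ∀ W, W.card = k → ∑ y ∈ Wᶜ, (F W - F (insert y W)) ≤
      δ * ((Fintype.card Y : ℝ) - k)) :
    lavg F k ≤ lavg F (k + 1) + δ := by
  set n := Fintype.card Y with hn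
  have hc : (0 : ℝ) < n.choose k := by exact_mod_cast Nat.choose_pos hk.le
  have hc1 : (0 : ℝ) < n.choose (k + 1) := by exact_mod_cast Nat.choose_pos hk
  have hnk : (0 : ℝ) < (n : ℝ) - k := by
    have : (k : ℝ) < n := by exact_mod_cast hk
    linarith
  have hch : ((n.choose (k + 1) : ℝ)) * (k + 1) = n.choose k * (n - k) := by
    have h1 := Nat.choose_succ_right_eq n k
    have h2 : ((n.choose (k + 1) * (k + 1) : ℕ) : ℝ) = ((n.choose k * (n - k) : ℕ) : ℝ) := by
      rw [h1]
    push_cast [Nat.cast_sub hk.le] at h2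
    exact h2
  have h1 : ∑ W ∈ powersetCard k (univ : Finset Y), ∑ y ∈ Wᶜ, (F W - F (insert y W)) ≤
      ∑ _W ∈ powersetCard k (univ : Finset Y), δ * ((n : ℝ) - k) :=
    sum_le_sum fun W hW => h W (mem_powersetCard.1 hW).2
  have h2 : ∑ W ∈ powersetCard k (univ : Finset Y), ∑ y ∈ Wᶜ, (F W - F (insert y W)) =
      ((n : ℝ) - k) * (∑ W ∈ powersetCard k (univ : Finset Y), F W) -
        ((k : ℝ) + 1) * ∑ W ∈ powersetCard (k + 1) (univ : Finset Y), F W := by
    rw [← sum_insert, mul_sum, ← sum_sub_distrib]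
    refine sum_congr rfl fun W hW => ?_
    rw [sum_sub_distrib, sum_const, nsmul_eq_mul, card_compl, (mem_powersetCard.1 hW).2,
      Nat.cast_sub hk.le]
  rw [h2, sum_const, card_powersetCard, card_univ, nsmul_eq_mul, ← hn] at h1
  unfold lavg
  rw [← hn]
  set a := ∑ W ∈ powersetCard k (univ : Finset Y), F W
  set b := ∑ W ∈ powersetCard (k + 1) (univ : Finset Y), F W
  have e1 : b / (n.choose (k + 1) : ℝ) = ((k : ℝ) + 1) * b / (n.choose k * ((n : ℝ) - k)) := by
    rw [← hch]
    field_simp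
  rw [e1, div_le_iff₀ hc]
  have e2 : (((k : ℝ) + 1) * b / (n.choose k * ((n : ℝ) - k)) + δ) * n.choose k =
      (((k : ℝ) + 1) * b + δ * (n.choose k * ((n : ℝ) - k))) / ((n : ℝ) - k) := by
    field_simp
  rw [e2, le_div_iff₀ hnk]
  nlinarith

/-- The telescoping estimate. -/
lemma telescope {S : ℕ → ℕ → ℝ} {δ : ℝ} {k0 N : ℕ} (h0 : 0 ≤ S k0 k0)
    (h : ∀ k j, k0 ≤ k → k < k0 + N → S k j ≤ S (k + 1) j + δ) :
    ∑ i ∈ range N, (S (k0 + i) (k0 + i + 1) - S (k0 + i) (k0 + i)) ≤
      S (k0 + N) (k0 + N) + N * δ := by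
  induction N with
  | zero => simpa using h0
  | succ N ih =>
    rw [sum_range_succ]
    have h1 := ih fun k j hk1 hk2 => h k j hk1 (by omega)
    have h2 := h (k0 + N) (k0 + N + 1) (by omega) (by omega)
    push_cast
    rw [← Nat.add_assoc]
    linarith

open Classical in
/-- The chain estimate: if `f j` is nondecreasing in `j`, hardly decreases when an element is
inserted, and jumps from `0` to `1` at `j = |W|` for the sets `W` with the property `G`, then `G`
has weight at most about that of one level. -/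
theorem chain {w : ℝ} (hw : 0 ≤ w) (f : ℕ → Finset Y → ℝ) (h0 : ∀ j W, 0 ≤ f j W)
    (h1 : ∀ j W, f j W ≤ 1) (hmono : ∀ j W, f j W ≤ f (j + 1) W) {k0 N : ℕ} {δ B : ℝ}
    (hB : ∀ k, (Fintype.card Y).choose k * w ^ k ≤ B) (hB0 : 0 ≤ B)
    (hcard : k0 + N ≤ Fintype.card Y)
    (hdrop : ∀ j W, k0 ≤ W.card → W.card < k0 + N → ∑ y ∈ Wᶜ, (f j W - f j (insert y W)) ≤
      δ * ((Fintype.card Y : ℝ) - W.card))
    (G : Finset Y → Prop)
    (hG : ∀ W, G W → k0 ≤ W.card → W.card < k0 + N →
      f (W.card + 1) W = 1 ∧ f W.card W = 0) :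
    ∑ W : Finset Y, w ^ W.card *
      (if (k0 ≤ W.card ∧ W.card < k0 + N) ∧ G W then (1 : ℝ) else 0) ≤ B * (1 + N * δ) := by
  set n := Fintype.card Y with hn
  have hstep : ∀ k j, k0 ≤ k → k < k0 + N → lavg (f j) k ≤ lavg (f j) (k + 1) + δ := by
    intro k j hk1 hk2
    refine lavg_step (by omega) fun W hW => ?_
    have h2 := hdrop j W (by omega) (by omega)
    rw [hW] at h2
    exact h2
  have htel := telescope (S := fun k j => lavg (f j) k) (δ := δ) (k0 := k0) (N := N)
    (lavg_nonneg (h0 _) _) hstep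
  have hlevel : ∀ k, k0 ≤ k → k < k0 + N →
      ∑ W ∈ powersetCard k (univ : Finset Y), w ^ W.card *
        (if (k0 ≤ W.card ∧ W.card < k0 + N) ∧ G W then (1 : ℝ) else 0) ≤
      B * (lavg (f (k + 1)) k - lavg (f k) k) := by
    intro k hk1 hk2
    have hc : (0 : ℝ) < n.choose k := by exact_mod_cast Nat.choose_pos (by omega)
    have e1 : lavg (f (k + 1)) k - lavg (f k) k =
        (∑ W ∈ powersetCard k (univ : Finset Y), (f (k + 1) W - f k W)) / n.choose k := by
      unfold lavg
      rw [sum_sub_distrib, sub_div]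
    have e2 : ∑ W ∈ powersetCard k (univ : Finset Y), w ^ W.card *
        (if (k0 ≤ W.card ∧ W.card < k0 + N) ∧ G W then (1 : ℝ) else 0) ≤
        w ^ k * ∑ W ∈ powersetCard k (univ : Finset Y), (f (k + 1) W - f k W) := by
      rw [mul_sum]
      refine sum_le_sum fun W hW => ?_
      have hWk := (mem_powersetCard.1 hW).2
      rw [hWk]
      refine mul_le_mul_of_nonneg_left ?_ (by positivity)
      split_ifs with h
      · have h3 := hG W h.2 (by omega) (by omega)
        rw [hWk] at h3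
        rw [h3.1, h3.2]
        norm_num
      · have := hmono k W
        linarith
    have hnn : 0 ≤ lavg (f (k + 1)) k - lavg (f k) k := by
      rw [e1]
      refine div_nonneg (sum_nonneg fun W _ => ?_) hc.le
      have := hmono k W
      linarith
    calc ∑ W ∈ powersetCard k (univ : Finset Y), w ^ W.card *
          (if (k0 ≤ W.card ∧ W.card < k0 + N) ∧ G W then (1 : ℝ) else 0)
        ≤ w ^ k * ∑ W ∈ powersetCard k (univ : Finset Y), (f (k + 1) W - f k W) := e2
      _ = (n.choose k * w ^ k) * (lavg (f (k + 1)) k - lavg (f k) k) := by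
          rw [e1]
          field_simp
      _ ≤ B * (lavg (f (k + 1)) k - lavg (f k) k) :=
          mul_le_mul_of_nonneg_right (hB k) hnn
  have hsplit : ∑ W : Finset Y, w ^ W.card *
      (if (k0 ≤ W.card ∧ W.card < k0 + N) ∧ G W then (1 : ℝ) else 0) =
      ∑ i ∈ range N, ∑ W ∈ powersetCard (k0 + i) (univ : Finset Y), w ^ W.card *
        (if (k0 ≤ W.card ∧ W.card < k0 + N) ∧ G W then (1 : ℝ) else 0) := by
    have h2 : ∑ W : Finset Y, w ^ W.card *
        (if (k0 ≤ W.card ∧ W.card < k0 + N) ∧ G W then (1 : ℝ) else 0) =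
        ∑ W ∈ univ.filter (fun W : Finset Y => k0 ≤ W.card ∧ W.card < k0 + N), w ^ W.card *
        (if (k0 ≤ W.card ∧ W.card < k0 + N) ∧ G W then (1 : ℝ) else 0) := by
      rw [sum_filter]
      refine sum_congr rfl fun W _ => ?_
      by_cases h : k0 ≤ W.card ∧ W.card < k0 + N
      · rw [if_pos h]
      · rw [if_neg h, if_neg fun h' => h h'.1, mul_zero]
    rw [h2, ← sum_fiberwise_of_maps_to (s := univ.filter
      (fun W : Finset Y => k0 ≤ W.card ∧ W.card < k0 + N)) (t := range N)
      (g := fun W => W.card - k0) (fun W hW => by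
        simp only [mem_filter, mem_univ, true_and] at hW
        rw [mem_range]
        omega)]
    refine sum_congr rfl fun i hi => ?_
    refine sum_congr ?_ fun W _ => rfl
    ext W
    rw [mem_range] at hi
    simp only [mem_filter, mem_univ, true_and, mem_powersetCard, subset_univ]
    omega
  rw [hsplit]
  calc ∑ i ∈ range N, ∑ W ∈ powersetCard (k0 + i) (univ : Finset Y), w ^ W.card *
        (if (k0 ≤ W.card ∧ W.card < k0 + N) ∧ G W then (1 : ℝ) else 0)
      ≤ ∑ i ∈ range N, B * (lavg (f (k0 + i + 1)) (k0 + i) - lavg (f (k0 + i)) (k0 + i)) :=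
        sum_le_sum fun i hi => hlevel _ (by omega) (by rw [mem_range] at hi; omega)
    _ = B * ∑ i ∈ range N, (lavg (f (k0 + i + 1)) (k0 + i) - lavg (f (k0 + i)) (k0 + i)) := by
        rw [mul_sum]
    _ ≤ B * (lavg (f (k0 + N)) (k0 + N) + N * δ) := mul_le_mul_of_nonneg_left htel hB0
    _ ≤ B * (1 + N * δ) := by
        refine mul_le_mul_of_nonneg_left ?_ hB0
        have := lavg_le_one (h1 (k0 + N)) (k0 + N)
        linarith

end

end Pool.Agent.H17.QM
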