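import Pool.Agent.H17.QV.Defs

/-!
# Verifiers with advice and the counting language of a random oracle: definitions
-/

set_option autoImplicit false

namespace Pool.Agent.H17.QM

/-- Verifiers with advice: `M s x` is the verifier used on the input `x` with the advice value
`s`. On inputs of length `n` they make at most `C * 2 ^ t n` queries, for some constant `C`. -/
def QueryBounded (t : ℕ → ℕ) (M : ℕ → List Bool → QVer (List Bool)) : Prop :=
  ∃ C : ℕ, ∀ s x, (M s x).T ≤ C * 2 ^ t x.length

/-- The mean number of witnesses at length `n`: the integer part of `4 ^ n / (n + 1) ^ 2`. -/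
def mean (n : ℕ) : ℕ := 4 ^ n / (n + 1) ^ 2

/-- The witnesses at length `n`: the strings `y`, among the first `2 ^ chk t n * mean n`, such
that the oracle contains the strings `code (1…1) y i` (`n` ones) for all `i < chk t n`. -/
def witnesses (t : ℕ → ℕ) (A : List Bool → Bool) (n : ℕ) : Set (List Bool) :=
  {y | rk y < 2 ^ chk t n * mean n ∧
    ∀ i < chk t n, A (code (List.replicate n true) y i) = true}

/-- The counting language: `x` is a member iff there are at least
`mean |x| - 3 * 2 ^ (|x| - 1) + rk x` witnesses at length `|x|`. -/
def cntlang (t : ℕ → ℕ) (A : List Bool → Bool) : Set (List Bool) :=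
  {x | mean x.length + rk x ≤
    (witnesses t A x.length).ncard + 2 ^ x.length + 2 ^ (x.length - 1)}

end Pool.Agent.H17.QM
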