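import Pool.Agent.H17.AD.Chain
import Pool.Agent.H17.AD.Binom
import Pool.Agent.H17.QV.Level
import Pool.Agent.H17.QM.Cor

/-!
# One length of the oracle: no advice value is likely to be correct
-/

set_option autoImplicit false

namespace Pool.Agent.H17.QM

open MeasureTheory Finset

section

variable {κ Y I : Type} [Fintype Y] [DecidableEq Y] [Fintype I] [DecidableEq I] {e : Y × I → κ}

omit [Fintype Y] [DecidableEq Y] [Fintype I] [DecidableEq I] in
lemma exists_row1 (he : Function.Injective e) : ∃ row : κ → Option Y,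
    ∀ y i, row (e (y, i)) = some y := by
  classical
  refine ⟨fun s => (Function.partialInv e s).map fun p => p.1, fun y i => ?_⟩
  change Option.map _ (Function.partialInv e (e (y, i))) = some y
  rw [Function.partialInv_left he]
  rfl

/-- Planting a single witness is not noticed on average. -/
lemma QAlg.sum_insert_sq (Q : QAlg κ) (he : Function.Injective e) (o : I → Bool) (ω : κ → Bool)
    (g : Y → I → Bool) (W : Finset Y) :
    ∑ y ∈ Wᶜ, (Q.prob (ph (fill e ω (plant o g (insert y W)))) -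
      Q.prob (ph (fill e ω (plant o g W)))) ^ 2 ≤ 16 * (Q.T : ℝ) ^ 2 := by
  classical
  rcases isEmpty_or_nonempty Y with hY | ⟨⟨y0⟩⟩
  · have : Wᶜ = ∅ := eq_empty_of_isEmpty _
    rw [this, sum_empty]
    positivity
  obtain ⟨row, hrow⟩ := exists_row1 he
  set a := ph (fill e ω (plant o g W)) with ha
  have hkey : ∀ y ∈ Wᶜ, (Q.prob (ph (fill e ω (plant o g (insert y W)))) - Q.prob a) ^ 2 ≤
      16 * Q.T * ∑ s ∈ range Q.T, Q.wt (Q.rows row y) (Q.state a s) := by
    intro y hy
    set b := ph (fill e ω (plant o g (insert y W))) with hb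
    have h2 := Q.abs_prob_sub (ph := b) (ph' := a) (norm_ph _) (norm_ph _)
    have h4 := Q.norm_state_sub_sq (ph := b) (ph' := a) (norm_ph _) (norm_ph _) Q.T
    set D := ‖Q.state b Q.T - Q.state a Q.T‖
    have h5 : (Q.prob b - Q.prob a) ^ 2 ≤ (2 * D) ^ 2 := by
      rw [← sq_abs]
      exact pow_le_pow_left₀ (abs_nonneg _) h2 2
    have h6 : ∑ s ∈ range Q.T, Q.wt (Q.diff b a) (Q.state a s) ≤
        ∑ s ∈ range Q.T, Q.wt (Q.rows row y) (Q.state a s) := by
      refine sum_le_sum fun s _ => Q.wt_mono ?_ _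
      intro i hi
      rw [Q.mem_diff] at hi
      rw [Q.mem_rows]
      unfold QAlg.phase at hi
      cases hq : Q.query i with
      | none => rw [hq] at hi; exact absurd rfl hi
      | some s =>
        rw [hq] at hi
        refine ⟨s, rfl, ?_⟩
        by_cases hs : ∃ p, e p = s
        · obtain ⟨⟨y', k⟩, rfl⟩ := hs
          rw [hrow]
          by_contra hne
          have hy' : y' ≠ y := fun h => hne (by rw [h])
          apply hi
          simp only [hb, ha, ph, fill_block e he]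
          by_cases hW : y' ∈ W
          · have h7 : y' ∈ insert y W := mem_insert_of_mem hW
            simp only [plant, if_pos hW, if_pos h7]
          · have h7 : y' ∉ insert y W := by
              rw [mem_insert]; tauto
            simp only [plant, if_neg hW, if_neg h7]
        · exfalso
          apply hi
          simp only [hb, ha, ph]
          rw [fill_off _ _ _ fun q hq => hs ⟨_, hq⟩, fill_off _ _ _ fun q hq => hs ⟨_, hq⟩]
    have h8 : (0 : ℝ) ≤ Q.T := Nat.cast_nonneg _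
    nlinarith
  have hsum : ∀ s, ∑ y ∈ Wᶜ, Q.wt (Q.rows row y) (Q.state a s) ≤ 1 := by
    intro s
    refine le_trans (sum_le_sum_of_subset_of_nonneg (subset_univ Wᶜ)
      fun x _ _ => Q.wt_nonneg _ _) ?_
    exact Q.sum_wt_rows (P := Y) (S := Y) row id (fun x _ => x) (fun _ x x' h => h) y0 _
      (Q.norm_state (norm_ph _) s)
  calc ∑ y ∈ Wᶜ, (Q.prob (ph (fill e ω (plant o g (insert y W)))) - Q.prob a) ^ 2
      ≤ ∑ y ∈ Wᶜ, 16 * Q.T * ∑ s ∈ range Q.T, Q.wt (Q.rows row y) (Q.state a s) :=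
        sum_le_sum hkey
    _ = 16 * Q.T * ∑ s ∈ range Q.T, ∑ y ∈ Wᶜ, Q.wt (Q.rows row y) (Q.state a s) := by
        rw [← mul_sum, sum_comm]
    _ ≤ 16 * Q.T * ∑ _s ∈ range Q.T, (1 : ℝ) :=
        mul_le_mul_of_nonneg_left (sum_le_sum fun s _ => hsum s) (by positivity)
    _ = 16 * (Q.T : ℝ) ^ 2 := by simp; ring

lemma QAlg.sum_insert_abs (Q : QAlg κ) (he : Function.Injective e) (o : I → Bool) (ω : κ → Bool)
    (g : Y → I → Bool) (W : Finset Y) :
    ∑ y ∈ Wᶜ, |Q.prob (ph (fill e ω (plant o g (insert y W)))) -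
      Q.prob (ph (fill e ω (plant o g W)))| ≤ 4 * (Q.T : ℝ) * √((Fintype.card Y : ℝ) - W.card) := by
  have h1 := sq_sum_le_card_mul_sum_sq (s := Wᶜ)
    (f := fun y => |Q.prob (ph (fill e ω (plant o g (insert y W)))) -
      Q.prob (ph (fill e ω (plant o g W)))|)
  simp only [sq_abs] at h1
  have hc : ((Wᶜ.card : ℕ) : ℝ) = (Fintype.card Y : ℝ) - W.card := by
    rw [card_compl, Nat.cast_sub (card_le_univ W)]
  rw [hc] at h1
  have hc0 : 0 ≤ (Fintype.card Y : ℝ) - W.card := by rw [← hc]; positivity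
  have h2 := Q.sum_insert_sq he o ω g W
  have h3 : (∑ y ∈ Wᶜ, |Q.prob (ph (fill e ω (plant o g (insert y W)))) -
      Q.prob (ph (fill e ω (plant o g W)))|) ^ 2 ≤
      (4 * (Q.T : ℝ) * √((Fintype.card Y : ℝ) - W.card)) ^ 2 := by
    rw [mul_pow, Real.sq_sqrt hc0]
    have := mul_le_mul_of_nonneg_left h2 hc0
    nlinarith
  exact le_of_sq_le_sq h3 (by positivity)

/-- The best cut-off acceptance probability among the inputs with threshold at most `j`. -/
noncomputable def best {R : ℕ} (V : Fin R → QVer κ) (a b : ℝ) (θ : ℕ) (j : ℕ) (A : κ → Bool) : ℝ :=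
  ⨆ p : (Σ i : {i : Fin R // θ + (i : ℕ) ≤ j}, (V i.1).wit),
    cut a b (((V p.1.1).alg p.2).prob (ph A))

variable {R : ℕ} {V : Fin R → QVer κ} {a b : ℝ} {θ : ℕ}

omit [Fintype Y] [DecidableEq Y] [Fintype I] [DecidableEq I] in
lemma best_bdd (j : ℕ) (A : κ → Bool) : BddAbove (Set.range
    fun p : (Σ i : {i : Fin R // θ + (i : ℕ) ≤ j}, (V i.1).wit) =>
    cut a b (((V p.1.1).alg p.2).prob (ph A))) := by
  refine ⟨1, ?_⟩
  rintro _ ⟨p, rfl⟩
  exact cut_le_one _ _ _

omit [Fintype Y] [DecidableEq Y] [Fintype I] [DecidableEq I] in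
lemma best_nonneg (j : ℕ) (A : κ → Bool) : 0 ≤ best V a b θ j A :=
  Real.iSup_nonneg fun _ => cut_nonneg _ _ _

omit [Fintype Y] [DecidableEq Y] [Fintype I] [DecidableEq I] in
lemma best_le_one (j : ℕ) (A : κ → Bool) : best V a b θ j A ≤ 1 :=
  Real.iSup_le (fun _ => cut_le_one _ _ _) zero_le_one

omit [Fintype Y] [DecidableEq Y] [Fintype I] [DecidableEq I] in
lemma best_mono (j : ℕ) (A : κ → Bool) : best V a b θ j A ≤ best V a b θ (j + 1) A := by
  refine Real.iSup_le (fun p => ?_) (best_nonneg _ _)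
  exact le_ciSup (best_bdd (V := V) (a := a) (b := b) (θ := θ) (j + 1) A)
    ⟨⟨p.1.1, p.1.2.trans (Nat.le_succ j)⟩, p.2⟩

omit [Fintype Y] [DecidableEq Y] [Fintype I] [DecidableEq I] in
lemma best_eq_one (hab : b < a) {j : ℕ} {A : κ → Bool} {i : Fin R} (hi : θ + (i : ℕ) ≤ j)
    (h : (V i).Accepts (ph A) a) : best V a b θ j A = 1 := by
  obtain ⟨ψ, hψ⟩ := h
  refine le_antisymm (best_le_one _ _) ?_
  refine le_trans (le_of_eq (cut_eq_one hab hψ).symm) ?_
  exact le_ciSup (best_bdd (V := V) (a := a) (b := b) (θ := θ) j A) ⟨⟨i, hi⟩, ψ⟩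

omit [Fintype Y] [DecidableEq Y] [Fintype I] [DecidableEq I] in
lemma best_eq_zero (hab : b < a) {j : ℕ} {A : κ → Bool}
    (h : ∀ i : Fin R, θ + (i : ℕ) ≤ j → ¬ (V i).Accepts (ph A) b) : best V a b θ j A = 0 := by
  refine le_antisymm (Real.iSup_le (fun p => ?_) le_rfl) (best_nonneg _ _)
  by_contra hcon
  push Not at hcon
  have h1 := lt_of_cut_pos hab hcon
  exact h p.1.1 p.1.2 ⟨p.2, h1.le⟩

lemma best_drop (he : Function.Injective e) (hab : b < a) {T : ℝ}
    (hT : ∀ i, ((V i).T : ℝ) ≤ T) (hT0 : 0 ≤ T) (o : I → Bool) (ω : κ → Bool)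
    (g : Y → I → Bool) (j : ℕ) (W : Finset Y) :
    ∑ y ∈ Wᶜ, (best V a b θ j (fill e ω (plant o g W)) -
      best V a b θ j (fill e ω (plant o g (insert y W)))) ≤
      4 * T / (a - b) * √((Fintype.card Y : ℝ) - W.card) := by
  have h0 : 0 < a - b := by linarith
  rcases isEmpty_or_nonempty (Σ i : {i : Fin R // θ + (i : ℕ) ≤ j}, (V i.1).wit) with hE | hE
  · have h1 : ∀ A : κ → Bool, best V a b θ j A = 0 := fun A => Real.iSup_of_isEmpty _
    simp only [h1, sub_self, sum_const_zero]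
    positivity
  refine le_of_forall_pos_le_add fun ε hε => ?_
  set c : ℝ := (Wᶜ.card : ℝ) with hc
  have hc0 : 0 ≤ c := Nat.cast_nonneg _
  have hε' : 0 < ε / (c + 1) := by positivity
  obtain ⟨p, hp⟩ := exists_lt_of_lt_ciSup (show best V a b θ j (fill e ω (plant o g W)) -
    ε / (c + 1) < best V a b θ j (fill e ω (plant o g W)) by linarith)
  have hterm : ∀ y ∈ Wᶜ, best V a b θ j (fill e ω (plant o g W)) -
      best V a b θ j (fill e ω (plant o g (insert y W))) ≤
      1 / (a - b) * |((V p.1.1).alg p.2).prob (ph (fill e ω (plant o g (insert y W)))) -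
        ((V p.1.1).alg p.2).prob (ph (fill e ω (plant o g W)))| + ε / (c + 1) := by
    intro y _
    have h2 : cut a b (((V p.1.1).alg p.2).prob (ph (fill e ω (plant o g (insert y W))))) ≤
        best V a b θ j (fill e ω (plant o g (insert y W))) :=
      le_ciSup (best_bdd (V := V) (a := a) (b := b) (θ := θ) j _) p
    have h3 := abs_cut_sub hab
      (((V p.1.1).alg p.2).prob (ph (fill e ω (plant o g (insert y W)))))
      (((V p.1.1).alg p.2).prob (ph (fill e ω (plant o g W))))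
    have h4 := (abs_le.1 h3).1
    linarith
  have h5 := ((V p.1.1).alg p.2).sum_insert_abs he o ω g W
  have h6 : 4 * ((((V p.1.1).alg p.2).T : ℕ) : ℝ) * √((Fintype.card Y : ℝ) - W.card) ≤
      4 * T * √((Fintype.card Y : ℝ) - W.card) := by
    refine mul_le_mul_of_nonneg_right ?_ (Real.sqrt_nonneg _)
    have := hT p.1.1
    have h7 : (((V p.1.1).alg p.2).T : ℝ) ≤ T := this
    linarith
  calc ∑ y ∈ Wᶜ, (best V a b θ j (fill e ω (plant o g W)) -
      best V a b θ j (fill e ω (plant o g (insert y W))))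
      ≤ ∑ y ∈ Wᶜ, (1 / (a - b) *
        |((V p.1.1).alg p.2).prob (ph (fill e ω (plant o g (insert y W)))) -
        ((V p.1.1).alg p.2).prob (ph (fill e ω (plant o g W)))| + ε / (c + 1)) :=
        sum_le_sum hterm
    _ = 1 / (a - b) * (∑ y ∈ Wᶜ,
        |((V p.1.1).alg p.2).prob (ph (fill e ω (plant o g (insert y W)))) -
        ((V p.1.1).alg p.2).prob (ph (fill e ω (plant o g W)))|) + c * (ε / (c + 1)) := by
        rw [sum_add_distrib, ← mul_sum, sum_const, nsmul_eq_mul]
    _ ≤ 1 / (a - b) * (4 * T * √((Fintype.card Y : ℝ) - W.card)) + ε := by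
        refine add_le_add (mul_le_mul_of_nonneg_left (h5.trans h6) (by positivity)) ?_
        rw [← mul_div_assoc, div_le_iff₀ (by positivity)]
        nlinarith
    _ = _ := by ring

open Classical in
/-- The weight of the tables for which one advice value is correct and the number of witnesses
lies in the window. -/
theorem weight_correct (he : Function.Injective e) (hab : b < a) {T : ℝ}
    (hT : ∀ i, ((V i).T : ℝ) ≤ T) (hT0 : 0 ≤ T) (o : I → Bool) (ω : κ → Bool)
    (g : Y → I → Bool) {M l : ℕ} (hM : 2 ≤ M) (hl : 1 ≤ l) (hY : Fintype.card Y = M * l)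
    {r : ℕ} (hr : 1 ≤ r) (hr2 : 2 * r ^ 2 ≤ l + 1) {m : ℝ} (hm : 0 < m)
    (hcard : (θ : ℝ) + R + m ≤ (M : ℝ) * l) :
    ∑ W : Finset Y, (1 / ((M : ℝ) - 1)) ^ W.card *
      (if (θ ≤ W.card ∧ W.card < θ + (R - 1)) ∧
        ((∀ i : Fin R, W.card < θ + (i : ℕ) →
          (V i).Accepts (ph (fill e ω (plant o g W))) a) ∧
        ∀ i : Fin R, θ + (i : ℕ) ≤ W.card →
          ¬ (V i).Accepts (ph (fill e ω (plant o g W))) b) then (1 : ℝ) else 0) ≤
      2 / r * (1 + R * (4 * T / ((a - b) * √m))) * (1 + 1 / ((M : ℝ) - 1)) ^ (M * l) := by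
  have h0 : 0 < a - b := by linarith
  have hM' : (2 : ℝ) ≤ M := by exact_mod_cast hM
  have hw : (0 : ℝ) ≤ 1 / ((M : ℝ) - 1) := by
    have : (0 : ℝ) < (M : ℝ) - 1 := by linarith
    positivity
  have hδ : 0 ≤ 4 * T / ((a - b) * √m) := by positivity
  have hcardN : θ + (R - 1) ≤ Fintype.card Y := by
    rw [hY]
    have : (θ : ℝ) + R ≤ (M * l : ℕ) := by push_cast; linarith
    have h1 : θ + R ≤ M * l := by exact_mod_cast this
    omega
  have h1 := chain hw (fun j W => best V a b θ j (fill e ω (plant o g W)))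
    (fun j W => best_nonneg _ _) (fun j W => best_le_one _ _) (fun j W => best_mono _ _)
    (k0 := θ) (N := R - 1) (δ := 4 * T / ((a - b) * √m))
    (B := 2 / r * (1 + 1 / ((M : ℝ) - 1)) ^ (M * l)) ?_ (by positivity) hcardN ?_
    (fun W => ((∀ i : Fin R, W.card < θ + (i : ℕ) →
          (V i).Accepts (ph (fill e ω (plant o g W))) a) ∧
        ∀ i : Fin R, θ + (i : ℕ) ≤ W.card →
          ¬ (V i).Accepts (ph (fill e ω (plant o g W))) b)) ?_
  · refine le_trans (le_of_eq ?_) (h1.trans ?_)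
    · refine sum_congr rfl fun W _ => ?_
      congr
    have h2 : ((R - 1 : ℕ) : ℝ) ≤ R := by exact_mod_cast Nat.sub_le R 1
    have h3 : (0 : ℝ) ≤ 2 / r * (1 + 1 / ((M : ℝ) - 1)) ^ (M * l) := by positivity
    calc 2 / (r : ℝ) * (1 + 1 / ((M : ℝ) - 1)) ^ (M * l) *
          (1 + ((R - 1 : ℕ) : ℝ) * (4 * T / ((a - b) * √m)))
        ≤ 2 / (r : ℝ) * (1 + 1 / ((M : ℝ) - 1)) ^ (M * l) *
          (1 + R * (4 * T / ((a - b) * √m))) := by
          refine mul_le_mul_of_nonneg_left ?_ h3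
          have := mul_le_mul_of_nonneg_right h2 hδ
          linarith
      _ = _ := by ring
  · intro k
    rw [hY]
    exact bw_le hM hl hr hr2 k
  · intro j W hW1 hW2
    refine (best_drop he hab hT hT0 o ω g j W).trans ?_
    have hWm : m ≤ (Fintype.card Y : ℝ) - W.card := by
      have h2 : (W.card : ℝ) ≤ θ + R := by
        have : W.card ≤ θ + R := by omega
        exact_mod_cast this
      rw [hY]
      push_cast
      linarith
    have hpos : 0 < (Fintype.card Y : ℝ) - W.card := hm.trans_le hWm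
    have hs : √m ≤ √((Fintype.card Y : ℝ) - W.card) := Real.sqrt_le_sqrt hWm
    have hsm : 0 < √m := Real.sqrt_pos.2 hm
    set u := √((Fintype.card Y : ℝ) - W.card) with hu
    have hu2 : (Fintype.card Y : ℝ) - W.card = u * u := by
      rw [hu, Real.mul_self_sqrt hpos.le]
    rw [hu2]
    have h3 : 4 * T / (a - b) * u = 4 * T / ((a - b) * √m) * (√m * u) := by
      field_simp
    rw [h3]
    refine mul_le_mul_of_nonneg_left ?_ hδ
    exact mul_le_mul_of_nonneg_right hs (hsm.le.trans hs)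
  · intro W hW hk1 hk2
    refine ⟨?_, ?_⟩
    · have hi : W.card + 1 - θ < R := by omega
      refine best_eq_one (i := ⟨W.card + 1 - θ, hi⟩) hab ?_ (hW.1 ⟨W.card + 1 - θ, hi⟩ ?_)
      · simp only; omega
      · simp only; omega
    · exact best_eq_zero hab fun i hi => hW.2 i hi

end

end Pool.Agent.H17.QM
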