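import Pool.Agent.H17.AD.Words

/-!
# The advice lower bound: the main theorem
-/

set_option autoImplicit false

namespace Pool.Agent.H17.QM

open MeasureTheory Filter Topology

variable {t : ℕ → ℕ}

lemma succ_le_two_pow (n : ℕ) : n + 1 ≤ 2 ^ n := Nat.lt_pow_self (by norm_num)

lemma sq_le_pow {n : ℕ} (hn : 12 ≤ n) : 4 * (n + 1) ^ 2 ≤ 2 ^ n := by
  induction n, hn using Nat.le_induction with
  | base => norm_num
  | succ n hn ih =>
    have e : 2 ^ (n + 1) = 2 * 2 ^ n := by rw [pow_succ]; ring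
    rw [e]
    nlinarith

/-- Bounds for the mean number of witnesses. -/
lemma mean_bounds {n : ℕ} (hn : 12 ≤ n) :
    (4 : ℝ) ^ n / (2 * ((n : ℝ) + 1) ^ 2) ≤ mean n ∧ (mean n : ℝ) ≤ 4 ^ n / ((n : ℝ) + 1) ^ 2 ∧
      (4 : ℝ) ^ n / ((n : ℝ) + 1) ^ 2 ≤ mean n + 1 ∧ 2 * 2 ^ n ≤ mean n := by
  have hsq := sq_le_pow hn
  have hpos : (0 : ℝ) < ((n : ℝ) + 1) ^ 2 := by positivity
  have h1 : (mean n : ℝ) ≤ 4 ^ n / ((n : ℝ) + 1) ^ 2 := by
    have := Nat.cast_div_le (α := ℝ) (m := 4 ^ n) (n := (n + 1) ^ 2)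
    push_cast at this
    exact this
  have h2 : (4 : ℝ) ^ n / ((n : ℝ) + 1) ^ 2 ≤ mean n + 1 := by
    rw [div_le_iff₀ hpos]
    have h3 := (Nat.div_lt_iff_lt_mul (show 0 < (n + 1) ^ 2 by positivity)).1
      (Nat.lt_succ_self (4 ^ n / (n + 1) ^ 2))
    have h4 : 4 ^ n ≤ (mean n + 1) * (n + 1) ^ 2 := by
      rw [mean]
      exact h3.le
    exact_mod_cast h4
  have h4 : (4 : ℕ) ^ n = 2 ^ n * 2 ^ n := by
    rw [← mul_pow]; norm_num
  have h5 : 4 * 2 ^ n ≤ mean n := by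
    rw [mean, Nat.le_div_iff_mul_le (by positivity), h4]
    nlinarith
  refine ⟨?_, h1, h2, by omega⟩
  have h6 : (1 : ℝ) ≤ mean n := by
    have : 1 ≤ mean n := le_trans (by have : 0 < 2 ^ n := by positivity
                                      omega) h5
    exact_mod_cast this
  have e : (4 : ℝ) ^ n / (2 * ((n : ℝ) + 1) ^ 2) = (4 ^ n / ((n : ℝ) + 1) ^ 2) / 2 := by
    field_simp
  rw [e]
  linarith

theorem prob_bound {M : ℕ → List Bool → QVer (List Bool)} {C : ℕ}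
    (hC : ∀ s x, (M s x).T ≤ C * 2 ^ t x.length) {a b : ℝ} (hab : b < a) (N : ℕ) {n : ℕ}
    (hn : 12 ≤ n) :
    (coins (List Bool)).real (SomeCorrect t M a b N n) ≤
      16 / ((n : ℝ) + 1) ^ 2 +
        8 * (1 + 4 * C / (a - b)) * ((((n : ℝ) + 1) * N) / 2 ^ n) := by
  have h0 : 0 < a - b := by linarith
  obtain ⟨hm1, hm2, hm3, hm4⟩ := mean_bounds hn
  have hsq := sq_le_pow hn
  have hp : (0 : ℝ) < 2 ^ n := by positivity
  have hn1 : (0 : ℝ) < (n : ℝ) + 1 := by positivity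
  have h4 : (4 : ℝ) ^ n = 2 ^ n * 2 ^ n := by rw [← mul_pow]; norm_num
  have h2n : 2 ^ n = 2 * 2 ^ (n - 1) := by
    obtain ⟨k, rfl⟩ : ∃ k, n = k + 1 := ⟨n - 1, by omega⟩
    rw [Nat.add_sub_cancel, pow_succ]; ring
  have h4n : 2 ^ (n - 1) = 2 * 2 ^ (n - 2) := by
    obtain ⟨k, rfl⟩ : ∃ k, n = k + 2 := ⟨n - 2, by omega⟩
    have e1 : k + 2 - 1 = k + 1 := by omega
    rw [Nat.add_sub_cancel, e1, pow_succ]; ring
  have hpos2 : 2 ≤ 2 ^ (n - 2) := by
    calc 2 = 2 ^ 1 := by norm_num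
      _ ≤ 2 ^ (n - 2) := Nat.pow_le_pow_right (by norm_num) (by omega)
  set r : ℕ := 2 ^ n / (2 * (n + 1)) with hr
  have hr1 : 1 ≤ r := by
    rw [hr, Nat.le_div_iff_mul_le (by positivity)]
    nlinarith
  have hrle : (r : ℝ) ≤ 2 ^ n / (2 * ((n : ℝ) + 1)) := by
    have := Nat.cast_div_le (α := ℝ) (m := 2 ^ n) (n := 2 * (n + 1))
    push_cast at this
    exact this
  have hrge : (2 : ℝ) ^ n / (4 * ((n : ℝ) + 1)) ≤ r := by
    have h5 := (Nat.div_lt_iff_lt_mul (show 0 < 2 * (n + 1) by positivity)).1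
      (Nat.lt_succ_self (2 ^ n / (2 * (n + 1))))
    have h6 : 2 ^ n ≤ (r + 1) * (2 * (n + 1)) := by rw [hr]; exact h5.le
    have h7 : 2 ^ n ≤ r * (4 * (n + 1)) := by nlinarith
    rw [div_le_iff₀ (by positivity)]
    exact_mod_cast h7
  have hr2 : 2 * r ^ 2 ≤ mean n + 1 := by
    have h5 : (2 : ℝ) * (r : ℝ) ^ 2 ≤ mean n + 1 := by
      refine le_trans ?_ hm3
      have h6 : (r : ℝ) ^ 2 ≤ (2 ^ n / (2 * ((n : ℝ) + 1))) ^ 2 :=
        pow_le_pow_left₀ (Nat.cast_nonneg _) hrle 2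
      calc (2 : ℝ) * (r : ℝ) ^ 2 ≤ 2 * (2 ^ n / (2 * ((n : ℝ) + 1))) ^ 2 := by linarith
        _ = 4 ^ n / ((n : ℝ) + 1) ^ 2 / 2 := by
            rw [h4]; field_simp
        _ ≤ 4 ^ n / ((n : ℝ) + 1) ^ 2 := by
            have : (0 : ℝ) ≤ 4 ^ n / ((n : ℝ) + 1) ^ 2 := by positivity
            linarith
    exact_mod_cast h5
  set u : ℝ := 2 ^ (t n + 2 * n) / ((n : ℝ) + 1) with hu
  have hu0 : 0 < u := by positivity
  have hchk : (2 : ℝ) ^ chk t n = 4 * ((2 ^ t n) ^ 2 * (2 ^ n * 2 ^ n)) := by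
    rw [chk, pow_add, pow_add, pow_mul, pow_mul, ← pow_mul, ← pow_mul, mul_comm 2 (t n),
      mul_comm 2 n, pow_mul, pow_mul]
    ring
  have hcard : (thr n : ℝ) + 2 ^ n + u ^ 2 ≤ (2 : ℝ) ^ chk t n * mean n := by
    have h5 : (thr n : ℝ) ≤ mean n := by
      have : thr n ≤ mean n := by rw [thr]; omega
      exact_mod_cast this
    have h6 : (2 : ℝ) ^ n ≤ mean n := by
      have : 2 ^ n ≤ mean n := by omega
      exact_mod_cast this
    have h7 : u ^ 2 = (2 ^ t n) ^ 2 * (2 ^ n * 2 ^ n) * (4 ^ n / ((n : ℝ) + 1) ^ 2) := by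
      rw [hu, div_pow, pow_add, h4]
      have : (2 : ℝ) ^ (2 * n) = 2 ^ n * 2 ^ n := by rw [two_mul, pow_add]
      rw [this]
      field_simp
    have h8 : 4 ^ n / ((n : ℝ) + 1) ^ 2 ≤ 2 * mean n := by
      have e : (4 : ℝ) ^ n / (2 * ((n : ℝ) + 1) ^ 2) = (4 ^ n / ((n : ℝ) + 1) ^ 2) / 2 := by
        field_simp
      rw [e] at hm1
      linarith
    set P : ℝ := (2 ^ t n) ^ 2 * (2 ^ n * 2 ^ n) with hP
    have hP1 : 1 ≤ P := by
      have h9 : (1 : ℝ) ≤ 2 ^ t n := one_le_pow₀ (by norm_num)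
      have h10 : (1 : ℝ) ≤ 2 ^ n := one_le_pow₀ (by norm_num)
      have h11 : (1 : ℝ) ≤ (2 ^ t n) ^ 2 := one_le_pow₀ h9
      have h12 : (1 : ℝ) ≤ 2 ^ n * 2 ^ n := by nlinarith
      rw [hP]
      nlinarith
    have h9 : P * (4 ^ n / ((n : ℝ) + 1) ^ 2) ≤ P * (2 * mean n) :=
      mul_le_mul_of_nonneg_left h8 (by linarith)
    rw [h7, hchk]
    have h10 : (0 : ℝ) ≤ mean n := Nat.cast_nonneg _
    nlinarith
  have hwin : ∀ k : ℕ, ¬ (thr n ≤ k ∧ k < thr n + (2 ^ n - 1)) →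
      (2 : ℝ) ^ n / 4 ≤ |(k : ℝ) - mean n| := by
    intro k hk
    have e : (2 : ℝ) ^ n / 4 = ((2 ^ (n - 2) : ℕ) : ℝ) := by
      have : (2 : ℝ) ^ n = ((2 ^ n : ℕ) : ℝ) := by push_cast; rfl
      rw [this, h2n, h4n]
      push_cast
      ring
    rw [e]
    have hcases : k + 2 ^ (n - 2) ≤ mean n ∨ mean n + 2 ^ (n - 2) ≤ k := by
      rw [thr] at hk
      omega
    rcases hcases with h | h
    · have h' : (k : ℝ) + ((2 ^ (n - 2) : ℕ) : ℝ) ≤ mean n := by exact_mod_cast h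
      rw [abs_sub_comm]
      exact le_trans (by linarith) (le_abs_self _)
    · have h' : (mean n : ℝ) + ((2 ^ (n - 2) : ℕ) : ℝ) ≤ k := by exact_mod_cast h
      exact le_trans (by linarith) (le_abs_self _)
  have h1 := prob_someCorrect (t := t) (N := N) (T := C * 2 ^ t n) (m := u ^ 2)
    (σ := 2 ^ n / 4) M hab (fun s x hx => by
      have := hC s x
      rw [hx] at this
      exact_mod_cast this) (by positivity) (by omega) hr1 hr2 (by positivity) (by positivity)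
      hcard hwin
  refine h1.trans (add_le_add ?_ ?_)
  · rw [div_le_iff₀ (by positivity)]
    refine hm2.trans (le_of_eq ?_)
    rw [h4]
    field_simp
    norm_num
  · rw [Real.sqrt_sq hu0.le]
    have h5 : 2 ^ n * (4 * ((C : ℝ) * 2 ^ t n) / ((a - b) * u)) ≤ 4 * C / (a - b) := by
      have h6 : 2 ^ n * (4 * ((C : ℝ) * 2 ^ t n) / ((a - b) * u)) =
          4 * C / (a - b) * (((n : ℝ) + 1) / 2 ^ n) := by
        rw [hu, pow_add]
        have : (2 : ℝ) ^ (2 * n) = 2 ^ n * 2 ^ n := by rw [two_mul, pow_add]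
        rw [this]
        field_simp
      rw [h6]
      have h7 : ((n : ℝ) + 1) / 2 ^ n ≤ 1 := by
        rw [div_le_one hp]
        exact_mod_cast succ_le_two_pow n
      exact mul_le_of_le_one_right (by positivity) h7
    have hr0 : (0 : ℝ) < r := by exact_mod_cast hr1
    have h8 : 2 / (r : ℝ) ≤ 8 * (((n : ℝ) + 1) / 2 ^ n) := by
      rw [div_le_iff₀ hr0]
      calc (2 : ℝ) = 8 * (((n : ℝ) + 1) / 2 ^ n) * (2 ^ n / (4 * ((n : ℝ) + 1))) := by
            field_simp; norm_num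
        _ ≤ 8 * (((n : ℝ) + 1) / 2 ^ n) * r := by
            refine mul_le_mul_of_nonneg_left hrge (by positivity)
    calc (N : ℝ) * (2 / r * (1 + 2 ^ n * (4 * ((C : ℝ) * 2 ^ t n) / ((a - b) * u))))
        ≤ N * (8 * (((n : ℝ) + 1) / 2 ^ n) * (1 + 4 * C / (a - b))) := by
          gcongr
      _ = _ := by ring

theorem ae_not_someCorrect {M : ℕ → List Bool → QVer (List Bool)} (hM : QueryBounded t M)
    {a b : ℝ} (hab : b < a) {N : ℕ → ℕ}
    (hN : Summable fun n : ℕ => (((n : ℝ) + 1) * N n) / 2 ^ n) :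
    ∀ᵐ A ∂(coins (List Bool)), ∀ᶠ n in atTop, A ∉ SomeCorrect t M a b (N n) n := by
  obtain ⟨C, hC⟩ := hM
  have h0 : 0 < a - b := by linarith
  refine ae_eventually_notMem ?_
  have hsum : Summable fun n : ℕ => 16 / ((n : ℝ) + 1) ^ 2 +
      8 * (1 + 4 * C / (a - b)) * ((((n : ℝ) + 1) * N n) / 2 ^ n) :=
    (summable_rk 16).add (hN.mul_left _)
  have hreal : Summable fun n : ℕ =>
      (coins (List Bool)).real (SomeCorrect t M a b (N n) n) := by
    refine Summable.of_norm_bounded_eventually_nat hsum ?_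
    filter_upwards [eventually_ge_atTop 12] with n hn
    rw [Real.norm_eq_abs, abs_of_nonneg measureReal_nonneg]
    exact prob_bound hC hab (N n) hn
  have e : ∀ n, (coins (List Bool)) (SomeCorrect t M a b (N n) n) =
      ENNReal.ofReal ((coins (List Bool)).real (SomeCorrect t M a b (N n) n)) := by
    intro n
    rw [measureReal_def, ENNReal.ofReal_toReal (measure_ne_top _ _)]
  simp only [e]
  rw [← ENNReal.ofReal_tsum_of_nonneg (fun n => measureReal_nonneg) hreal]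
  exact ENNReal.ofReal_ne_top

/-- The advice lower bound. -/
theorem advice_main (t : ℕ → ℕ) {N : ℕ → ℕ}
    (hN : Summable fun n : ℕ => (((n : ℝ) + 1) * N n) / 2 ^ n)
    (𝓜 : Set (ℕ → List Bool → QVer (List Bool))) (hc : 𝓜.Countable)
    (hM : ∀ M ∈ 𝓜, QueryBounded t M) :
    ∀ᵐ A ∂(coins (List Bool)), ∀ M ∈ 𝓜, ∀ α β : ℝ, β < α → ∀ᶠ n in atTop, ∀ s < N n,
      ∃ x : List Bool, x.length = n ∧
        ((x ∉ cntlang t A ∧ ¬ (M s x).Accepts (ph A) α) ∨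
          (x ∈ cntlang t A ∧ (M s x).Accepts (ph A) β)) := by
  have h1 : ∀ᵐ A ∂(coins (List Bool)), ∀ M ∈ 𝓜, ∀ p q : ℚ, q < p → ∀ᶠ n in atTop,
      A ∉ SomeCorrect t M (p : ℝ) (q : ℝ) (N n) n := by
    rw [ae_ball_iff hc]
    intro M hMm
    rw [ae_all_iff]
    intro p
    rw [ae_all_iff]
    intro q
    by_cases hpq : q < p
    · have h2 := ae_not_someCorrect (t := t) (hM M hMm)
        (show (q : ℝ) < (p : ℝ) by exact_mod_cast hpq) hN
      filter_upwards [h2] with A hA _ using hA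
    · exact ae_of_all _ fun A h => absurd h hpq
  filter_upwards [h1] with A hA M hMm α β hαβ
  obtain ⟨q, hq1, hq2⟩ := exists_rat_btwn hαβ
  obtain ⟨p, hp1, hp2⟩ := exists_rat_btwn hq2
  have hqp : q < p := by exact_mod_cast hp1
  filter_upwards [hA M hMm p q hqp] with n hn s hs
  by_contra hcon
  push Not at hcon
  refine hn ?_
  simp only [SomeCorrect, Set.mem_iUnion, Finset.mem_range]
  refine ⟨s, hs, fun x hx => ⟨fun hxL => ?_, fun hxL hacc => ?_⟩⟩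
  · obtain ⟨ψ, hψ⟩ := (hcon x hx).1 hxL
    exact ⟨ψ, hp2.le.trans hψ⟩
  · obtain ⟨ψ, hψ⟩ := hacc
    exact (hcon x hx).2 hxL ⟨ψ, hq1.le.trans hψ⟩

end Pool.Agent.H17.QM
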