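import Pool.Agent.H17.AD.Level

/-!
# One length of the oracle: the union over the advice values
-/

set_option autoImplicit false

namespace Pool.Agent.H17.QM

open MeasureTheory Finset

section

variable {κ Y I : Type} [Fintype Y] [DecidableEq Y] [Fintype I] [DecidableEq I] {e : Y × I → κ}

/-- The pointwise inequality. -/
theorem point_adv (he : Function.Injective e) {R N θ : ℕ} (V : ℕ → Fin R → QVer κ) {a b : ℝ}
    (hab : b < a) {T : ℝ} (hT : ∀ s i, ((V s i).T : ℝ) ≤ T) (hT0 : 0 ≤ T) (o : I → Bool)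
    (ω : κ → Bool) {M l : ℕ} (hM : 2 ≤ M) (hMI : Fintype.card (I → Bool) = M) (hl : 1 ≤ l)
    (hY : Fintype.card Y = M * l) {r : ℕ} (hr : 1 ≤ r) (hr2 : 2 * r ^ 2 ≤ l + 1) {m σ : ℝ}
    (hm : 0 < m) (hσ : 0 < σ) (hcard : (θ : ℝ) + R + m ≤ (M : ℝ) * l)
    (hwin : ∀ k : ℕ, ¬ (θ ≤ k ∧ k < θ + (R - 1)) → σ ≤ |(k : ℝ) - l|) {Z : Set (κ → Bool)}
    (hZ : ∀ g ∈ wf (Y := Y) o, ∀ W, fill e ω (plant o g W) ∈ Z → ∃ s < N,
      (∀ i : Fin R, W.card < θ + (i : ℕ) →
        (V s i).Accepts (ph (fill e ω (plant o g W))) a) ∧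
      ∀ i : Fin R, θ + (i : ℕ) ≤ W.card →
        ¬ (V s i).Accepts (ph (fill e ω (plant o g W))) b) :
    ∑ g : Y → I → Bool, Z.indicator (fun _ => (1 : ℝ)) (fill e ω g) ≤
      (l / σ ^ 2 + N * (2 / r * (1 + R * (4 * T / ((a - b) * √m))))) *
        Fintype.card (Y → I → Bool) := by
  classical
  have hw : wq (I → Bool) = 1 / ((M : ℝ) - 1) := by rw [wq, hMI]
  rw [sum_eq_plant (Y := Y) o (by rw [hMI]; exact hM)]
  have h1 := combine (P := Y) (by rw [hMI]; exact hM) o (A := 0)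
    (B := l / σ ^ 2 + N * (2 / r * (1 + R * (4 * T / ((a - b) * √m)))))
    (f := fun g => ∑ W : Finset Y, wq (I → Bool) ^ W.card *
      Z.indicator (fun _ => (1 : ℝ)) (fill e ω (plant o g W))) (g := fun _ => 0) ?_
  · simpa only [zero_mul, zero_add] using h1
  intro g hg
  rw [zero_mul, zero_add, hw, hY]
  set w : ℝ := 1 / ((M : ℝ) - 1) with hwdef
  have hw0 : 0 ≤ w := by
    have hM' : (2 : ℝ) ≤ M := by exact_mod_cast hM
    have : (0 : ℝ) < (M : ℝ) - 1 := by linarith
    positivity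
  let Cr : ℕ → Finset Y → Prop := fun s W =>
    (∀ i : Fin R, W.card < θ + (i : ℕ) → (V s i).Accepts (ph (fill e ω (plant o g W))) a) ∧
    ∀ i : Fin R, θ + (i : ℕ) ≤ W.card → ¬ (V s i).Accepts (ph (fill e ω (plant o g W))) b
  have hterm : ∀ W : Finset Y, w ^ W.card *
      Z.indicator (fun _ => (1 : ℝ)) (fill e ω (plant o g W)) ≤
      w ^ W.card * (if ¬ (θ ≤ W.card ∧ W.card < θ + (R - 1)) then (1 : ℝ) else 0) +
      ∑ s ∈ range N, w ^ W.card *
        (if (θ ≤ W.card ∧ W.card < θ + (R - 1)) ∧ Cr s W then (1 : ℝ) else 0) := by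
    intro W
    rw [← mul_sum, ← mul_add]
    refine mul_le_mul_of_nonneg_left ?_ (by positivity)
    have hnn : ∀ s ∈ range N,
        (0 : ℝ) ≤ if (θ ≤ W.card ∧ W.card < θ + (R - 1)) ∧ Cr s W then (1 : ℝ) else 0 := by
      intro s _
      split_ifs <;> norm_num
    by_cases hmem : fill e ω (plant o g W) ∈ Z
    · rw [Set.indicator_of_mem hmem]
      by_cases hw1 : θ ≤ W.card ∧ W.card < θ + (R - 1)
      · obtain ⟨s, hs, h2⟩ := hZ g hg W hmem
        have h3 := single_le_sum hnn (mem_range.2 hs)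
        rw [if_pos ⟨hw1, h2⟩] at h3
        rw [if_neg (not_not.2 hw1), zero_add]
        exact h3
      · rw [if_pos hw1]
        have := sum_nonneg hnn
        linarith
    · rw [Set.indicator_of_notMem hmem]
      have h4 := sum_nonneg hnn
      split_ifs
      · linarith
      · linarith
  calc ∑ W : Finset Y, w ^ W.card * Z.indicator (fun _ => (1 : ℝ)) (fill e ω (plant o g W))
      ≤ ∑ W : Finset Y,
        (w ^ W.card * (if ¬ (θ ≤ W.card ∧ W.card < θ + (R - 1)) then (1 : ℝ) else 0) +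
        ∑ s ∈ range N, w ^ W.card *
        (if (θ ≤ W.card ∧ W.card < θ + (R - 1)) ∧ Cr s W then (1 : ℝ) else 0)) :=
        sum_le_sum fun W _ => hterm W
    _ = (∑ W : Finset Y,
        w ^ W.card * (if ¬ (θ ≤ W.card ∧ W.card < θ + (R - 1)) then (1 : ℝ) else 0)) +
        ∑ s ∈ range N, ∑ W : Finset Y, w ^ W.card *
        (if (θ ≤ W.card ∧ W.card < θ + (R - 1)) ∧ Cr s W then (1 : ℝ) else 0) := by
        rw [sum_add_distrib, sum_comm]
    _ ≤ l / σ ^ 2 * (1 + w) ^ (M * l) +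
        ∑ _s ∈ range N,
          2 / r * (1 + R * (4 * T / ((a - b) * √m))) * (1 + w) ^ (M * l) := by
        refine add_le_add ?_ (sum_le_sum fun s _ => ?_)
        · have h5 := bw_tail hY hM hσ (fun k => ¬ (θ ≤ k ∧ k < θ + (R - 1))) hwin
          refine le_trans (le_of_eq ?_) h5
          refine sum_congr rfl fun W _ => ?_
          congr
        · have h6 := weight_correct (V := V s) he hab (hT s) hT0 o ω g hM hl hY hr hr2 hm hcard
          refine le_trans (le_of_eq ?_) h6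
          refine sum_congr rfl fun W _ => ?_
          congr
    _ = _ := by
        rw [sum_const, card_range, nsmul_eq_mul]
        ring

end

end Pool.Agent.H17.QM
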