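import Pool.Agent.H17.AD.Defs
import Pool.Agent.H17.AD.Point

/-!
# The counting language on one length
-/

set_option autoImplicit false

namespace Pool.Agent.H17.QM

open MeasureTheory

variable {t : ℕ → ℕ}

/-- The block of length `n`. -/
noncomputable def ablk (t : ℕ → ℕ) (n : ℕ)
    (p : Fin (2 ^ chk t n * mean n) × Fin (chk t n)) : List Bool :=
  code (List.replicate n true) (str p.1) p.2

lemma ablk_injective (t : ℕ → ℕ) (n : ℕ) : Function.Injective (ablk t n) := by
  intro p q h
  obtain ⟨-, h2, h3⟩ := code_injective h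
  exact Prod.ext (Fin.ext (str_injective h2)) (Fin.ext h3)

lemma witnesses_fill (n : ℕ) (ω : List Bool → Bool)
    (h : Fin (2 ^ chk t n * mean n) → Fin (chk t n) → Bool) :
    witnesses t (fill (ablk t n) ω h) n =
      (fun j : Fin (2 ^ chk t n * mean n) => str j) '' {j | h j = fun _ => true} := by
  ext y
  simp only [witnesses, Set.mem_ofPred_eq, Set.mem_image]
  constructor
  · rintro ⟨h1, h2⟩
    refine ⟨⟨rk y, h1⟩, ?_, str_rk y⟩
    funext i
    have h3 := h2 i i.2
    have e : code (List.replicate n true) y i = ablk t n (⟨rk y, h1⟩, i) := by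
      simp only [ablk, str_rk]
    rw [e, fill_block _ (ablk_injective t n)] at h3
    exact h3
  · rintro ⟨j, h1, rfl⟩
    refine ⟨by rw [rk_str]; exact j.2, fun i hi => ?_⟩
    have e : code (List.replicate n true) (str j) i = ablk t n (j, ⟨i, hi⟩) := rfl
    rw [e, fill_block _ (ablk_injective t n), h1]

lemma ncard_witnesses (n : ℕ) (ω : List Bool → Bool)
    {g : Fin (2 ^ chk t n * mean n) → Fin (chk t n) → Bool}
    (hg : g ∈ wf (Y := Fin (2 ^ chk t n * mean n)) fun _ => true)
    (W : Finset (Fin (2 ^ chk t n * mean n))) :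
    (witnesses t (fill (ablk t n) ω (plant (fun _ => true) g W)) n).ncard = W.card := by
  rw [witnesses_fill, Set.ncard_image_of_injective _ (fun i j h => Fin.ext (str_injective h))]
  have h1 := filter_plant (fun _ => true) hg W
  have h2 : {j | plant (fun _ => true) g W j = fun _ => true} = (W : Set _) := by
    ext j
    rw [Set.mem_ofPred_eq, Finset.mem_coe]
    conv_rhs => rw [← h1]
    rw [Finset.mem_filter]
    simp only [Finset.mem_univ, true_and]
  rw [h2, Set.ncard_coe_finset]

lemma length_str_add {n i : ℕ} (hi : i < 2 ^ n) : (str (2 ^ n - 1 + i)).length = n := by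
  have h0 : 0 < 2 ^ n := by positivity
  have h1 := le_rk (str (2 ^ n - 1 + i))
  have h2 := rk_lt (str (2 ^ n - 1 + i))
  rw [rk_str] at h1 h2
  have h3 : 2 ^ (str (2 ^ n - 1 + i)).length < 2 ^ (n + 1) := by
    rw [pow_succ]; omega
  have h4 : 2 ^ n < 2 ^ ((str (2 ^ n - 1 + i)).length + 1) := by omega
  have h5 := (Nat.pow_lt_pow_iff_right (by norm_num : 1 < 2)).1 h3
  have h6 := (Nat.pow_lt_pow_iff_right (by norm_num : 1 < 2)).1 h4
  omega

/-- The threshold at length `n`. -/
def thr (n : ℕ) : ℕ := mean n - 1 - 2 ^ (n - 1)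

lemma mem_cntlang {n i : ℕ} (hi : i < 2 ^ n) (hmean : 1 + 2 ^ (n - 1) ≤ mean n)
    (A : List Bool → Bool) :
    str (2 ^ n - 1 + i) ∈ cntlang t A ↔ thr n + i ≤ (witnesses t A n).ncard := by
  have h0 : 0 < 2 ^ n := by positivity
  simp only [cntlang, Set.mem_ofPred_eq, length_str_add hi, rk_str, thr]
  omega

lemma measurableSet_cntlang (x : List Bool) :
    MeasurableSet {A : List Bool → Bool | x ∈ cntlang t A} := by
  classical
  set n := x.length with hn
  refine measurableSet_local ((Finset.univ : Finset (Fin (2 ^ chk t n * mean n) ×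
    Fin (chk t n))).image (ablk t n)) _ fun A A' h => ?_
  have h1 : witnesses t A n = witnesses t A' n := by
    ext y
    simp only [witnesses, Set.mem_ofPred_eq]
    refine and_congr_right fun hy => forall_congr' fun i => forall_congr' fun hi => ?_
    have e : code (List.replicate n true) y i = ablk t n (⟨rk y, hy⟩, ⟨i, hi⟩) := by
      simp only [ablk, str_rk]
    rw [e, h _ (Finset.mem_image_of_mem _ (Finset.mem_univ _))]
  simp only [cntlang, Set.mem_ofPred_eq, ← hn, h1]

/-- The advice value `s` is correct on the inputs of length `n`. -/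
def Correct (t : ℕ → ℕ) (M : ℕ → List Bool → QVer (List Bool)) (a b : ℝ) (s n : ℕ) :
    Set (List Bool → Bool) :=
  {A | ∀ x : List Bool, x.length = n → (x ∉ cntlang t A → (M s x).Accepts (ph A) a) ∧
    (x ∈ cntlang t A → ¬ (M s x).Accepts (ph A) b)}

lemma measurableSet_Correct (M : ℕ → List Bool → QVer (List Bool)) (a b : ℝ) (s n : ℕ) :
    MeasurableSet (Correct t M a b s n) := by
  have : Correct t M a b s n = ⋂ x : List Bool, ⋂ _ : x.length = n,
      ((({A | x ∈ cntlang t A} ∪ {A | (M s x).Accepts (ph A) a})) ∩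
        ({A | x ∈ cntlang t A}ᶜ ∪ {A | (M s x).Accepts (ph A) b}ᶜ)) := by
    ext A
    simp only [Correct, Set.mem_ofPred_eq, Set.mem_iInter, Set.mem_inter_iff, Set.mem_union,
      Set.mem_compl_iff]
    refine forall_congr' fun x => forall_congr' fun _ => ?_
    tauto
  rw [this]
  refine MeasurableSet.iInter fun x => MeasurableSet.iInter fun _ => ?_
  exact ((measurableSet_cntlang x).union (QVer.measurableSet_accepts _ _)).inter
    ((measurableSet_cntlang x).compl.union (QVer.measurableSet_accepts _ _).compl)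

/-- Some advice value below `N` is correct on the inputs of length `n`. -/
def SomeCorrect (t : ℕ → ℕ) (M : ℕ → List Bool → QVer (List Bool)) (a b : ℝ) (N n : ℕ) :
    Set (List Bool → Bool) := ⋃ s ∈ Finset.range N, Correct t M a b s n

lemma measurableSet_SomeCorrect (M : ℕ → List Bool → QVer (List Bool)) (a b : ℝ) (N n : ℕ) :
    MeasurableSet (SomeCorrect t M a b N n) :=
  Finset.measurableSet_biUnion _ fun _ _ => measurableSet_Correct _ _ _ _ _

lemma card_bits (n : ℕ) : Fintype.card (Fin (chk t n) → Bool) = 2 ^ chk t n := by simp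

/-- The probability that some advice value is correct. -/
theorem prob_someCorrect (M : ℕ → List Bool → QVer (List Bool)) {a b : ℝ} (hab : b < a)
    {n N : ℕ} {T : ℝ} (hT : ∀ s x, x.length = n → ((M s x).T : ℝ) ≤ T) (hT0 : 0 ≤ T)
    (hmean : 1 + 2 ^ (n - 1) ≤ mean n) {r : ℕ} (hr : 1 ≤ r) (hr2 : 2 * r ^ 2 ≤ mean n + 1)
    {m σ : ℝ} (hm : 0 < m) (hσ : 0 < σ)
    (hcard : (thr n : ℝ) + 2 ^ n + m ≤ (2 : ℝ) ^ chk t n * mean n)
    (hwin : ∀ k : ℕ, ¬ (thr n ≤ k ∧ k < thr n + (2 ^ n - 1)) → σ ≤ |(k : ℝ) - mean n|) :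
    (coins (List Bool)).real (SomeCorrect t M a b N n) ≤
      mean n / σ ^ 2 + N * (2 / r * (1 + 2 ^ n * (4 * T / ((a - b) * √m)))) := by
  classical
  set τ : ℝ := mean n / σ ^ 2 + N * (2 / r * (1 + 2 ^ n * (4 * T / ((a - b) * √m)))) with hτ
  have h0 : 0 < a - b := by linarith
  have hτ0 : 0 ≤ τ := by positivity
  have hpt : ∀ ω, ∑ g : Fin (2 ^ chk t n * mean n) → Fin (chk t n) → Bool,
      (SomeCorrect t M a b N n).indicator (fun _ => (1 : ℝ)) (fill (ablk t n) ω g) ≤
      τ * Fintype.card (Fin (2 ^ chk t n * mean n) → Fin (chk t n) → Bool) := by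
    intro ω
    have h1 := point_adv (ablk_injective t n) (R := 2 ^ n) (N := N) (θ := thr n)
      (fun s i => M s (str (2 ^ n - 1 + (i : ℕ)))) hab
      (fun s i => hT s _ (length_str_add i.2)) hT0 (fun _ => true) ω
      (M := 2 ^ chk t n) (l := mean n)
      (by
        have : chk t n = 2 * t n + 2 * n + 1 + 1 := rfl
        rw [this, pow_succ]
        have : 0 < 2 ^ (2 * t n + 2 * n + 1) := by positivity
        omega)
      (card_bits n) ((Nat.le_add_right 1 _).trans hmean) (by simp) hr hr2 hm hσ
      (by push_cast; exact hcard) hwin (Z := SomeCorrect t M a b N n) ?_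
    · refine h1.trans (le_of_eq ?_)
      rw [hτ]
      push_cast
      rfl
    intro g hg W hmem
    simp only [SomeCorrect, Set.mem_iUnion, Finset.mem_range] at hmem
    obtain ⟨s, hs, hA⟩ := hmem
    refine ⟨s, hs, fun i hi => ?_, fun i hi => ?_⟩
    · refine (hA _ (length_str_add i.2)).1 ?_
      rw [mem_cntlang i.2 hmean, ncard_witnesses n ω hg W]
      omega
    · refine (hA _ (length_str_add i.2)).2 ?_
      rw [mem_cntlang i.2 hmean, ncard_witnesses n ω hg W]
      exact hi
  have h2 := level_measure (ablk_injective t n)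
    (measurableSet_SomeCorrect (t := t) M a b N n) (S := Set.univ) (E := Set.univ)
    MeasurableSet.univ MeasurableSet.univ (fun _ _ => Iff.rfl) (μ := 0) (τ := τ)
    (fun ω => by simpa only [zero_mul, zero_add] using hpt ω) hτ0
  simpa only [zero_mul, zero_add, Set.univ_inter] using h2

end Pool.Agent.H17.QM
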